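import Pool.Agent.H95.NV.Targets2

/-!
# The central values as sums over the ideals of a class (row ZSJ)
-/

set_option autoImplicit false

open NumberField
open scoped nonZeroDivisors

namespace Pool.Agent.H33.NV

open Pool.Agent.H95.NV
open Pool.Agent.H65.CM4 (Pl rv nm dk dg V2 Fo)
open Pool.Agent.H31.CN (IsLf NV)
open Pool.Agent.H95.CM (Nr)
open Pool.Agent.H61.NVK (ci cr Lb nf Vk zf sD)
open Pool.Agent.H89.NV (PrI np nS idS ni q4 Dis Fnd good rts nuP nu Zc Uf CK Lam hom Ineq em tp sd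
  TrK prp)

lemma zsj_nS {k : Type} [Field k] [NumberField k] (m : Finset (PrI k)) : 0 < nS m := by
  unfold nS
  refine Finset.prod_pos fun P _ => ?_
  unfold np nm
  have h := P.2.2
  have h1 : Ideal.absNorm P.1 ≠ 0 := by
    rw [Ne, Ideal.absNorm_eq_zero_iff]
    exact h
  exact_mod_cast Nat.pos_of_ne_zero h1

lemma zsj_nm {K : Type} [Field K] [NumberField K] (J : (Ideal (𝓞 K))⁰) :
    0 < nm (J : Ideal (𝓞 K)) := by
  unfold nm
  have h1 : Ideal.absNorm (J : Ideal (𝓞 K)) ≠ 0 := by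
    rw [Ne, Ideal.absNorm_eq_zero_iff]
    exact nonZeroDivisors.coe_ne_zero J
  exact_mod_cast Nat.pos_of_ne_zero h1

lemma zsj_frac {n z C : ℝ} (hn : 0 < n) (hz : 0 < z) :
    C / ((n / z) * Real.sqrt (n / z)) = C * (z * Real.sqrt z) / (n * Real.sqrt n) := by
  have h1 : 0 < Real.sqrt n := Real.sqrt_pos.2 hn
  have h2 : 0 < Real.sqrt z := Real.sqrt_pos.2 hz
  rw [Real.sqrt_div hn.le]
  field_simp

open Classical in
lemma zsj_bind {α β : Type} (s : Finset α) (g : α → β) :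
    ((s >>= fun a => (pure (g a) : Finset β)) : Finset β).card ≤ s.card := by
  have h : ((s >>= fun a => (pure (g a) : Finset β)) : Finset β) = s.image g := by
    ext x
    change x ∈ s.sup (fun a => ({g a} : Finset β)) ↔ _
    rw [Finset.mem_sup, Finset.mem_image]
    constructor
    · rintro ⟨v, hv, hx⟩
      exact ⟨v, hv, (Finset.mem_singleton.1 hx).symm⟩
    · rintro ⟨v, hv, hx⟩
      exact ⟨v, hv, Finset.mem_singleton.2 hx.symm⟩
  rw [h]
  exact Finset.card_image_le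

lemma zsj_dvn {k K : Type} [Field k] [NumberField k] [Field K] [NumberField K] [Algebra k K]
    (m : Ideal (𝓞 k)) (J : Ideal (𝓞 K)) : dvn k m J ≤ (Nr k K m).card := by
  classical
  unfold dvn
  exact (Finset.card_filter_le _ _).trans (zsj_bind (Nr k K m) fun a => (a : Ideal (𝓞 K)))

lemma zsj_ind {α : Type} (P : α → Prop) [DecidablePred P] (G : α → ℝ) (t : ℝ)
    (h : HasSum (fun p : {p : α // P p} => G p.1) t) :
    HasSum (fun p : α => if P p then G p else 0) t := by
  have h1 := (hasSum_subtype_iff_indicator (s := {p : α | P p}) (f := G)).1 h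
  have h2 : (fun p : α => if P p then G p else 0) = ({p : α | P p}).indicator G := by
    funext p
    by_cases hp : P p
    · rw [if_pos hp, Set.indicator_of_mem (show p ∈ {p : α | P p} from hp)]
    · rw [if_neg hp, Set.indicator_of_notMem (show p ∉ {p : α | P p} from hp)]
  rw [h2]
  exact h1

theorem zsj_sum (hSIJ : T_SIJ) (k : Type) [Field k] [NumberField k] [IsTotallyReal k]
    (hV : T_VKD k) (K : Type) [Field K] [NumberField K] [Algebra k K]
    (S : Finset (Finset (PrI k))) (c : Finset (PrI k) → ℝ) (y : ℝ) (hy : 0 < y) :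
    Summable fun J : (Ideal (𝓞 K))⁰ => zt k S c y (J : Ideal (𝓞 K)) := by
  obtain ⟨C, hC⟩ := hV
  obtain ⟨κ, hκ⟩ : ∃ κ : Finset (PrI k) → ℝ, κ = fun m =>
      |c m| * (2 * (C * ((nS m * y) * Real.sqrt (nS m * y)))) * (Nr k K (idS m)).card := ⟨_, rfl⟩
  have hbase := (hSIJ K).mul_left (∑ m ∈ S, κ m)
  refine Summable.of_norm_bounded hbase fun J => ?_
  have hn := zsj_nm J
  obtain ⟨n, hnd⟩ : ∃ n, n = nm (J : Ideal (𝓞 K)) := ⟨_, rfl⟩
  rw [← hnd] at hn ⊢
  have hsn : 0 < Real.sqrt n := Real.sqrt_pos.2 hn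
  have hterm : ∀ m ∈ S, |c m * (2 * Vk k (n / (nS m * y))) * dvn k (idS m) (J : Ideal (𝓞 K))| ≤
      κ m / (n * Real.sqrt n) := by
    intro m _
    have hz : 0 < nS m * y := mul_pos (zsj_nS m) hy
    have h1 := hC (n / (nS m * y)) (div_pos hn hz)
    rw [zsj_frac hn hz] at h1
    have h2 : (dvn k (idS m) (J : Ideal (𝓞 K)) : ℝ) ≤ (Nr k K (idS m)).card := by
      exact_mod_cast zsj_dvn (k := k) (idS m) (J : Ideal (𝓞 K))
    have h0 : 0 ≤ C * (nS m * y * Real.sqrt (nS m * y)) / (n * Real.sqrt n) :=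
      (abs_nonneg _).trans h1
    rw [abs_mul, abs_mul, abs_mul, Nat.abs_cast, abs_two]
    calc |c m| * (2 * |Vk k (n / (nS m * y))|) * (dvn k (idS m) (J : Ideal (𝓞 K)) : ℝ)
        ≤ |c m| * (2 * (C * (nS m * y * Real.sqrt (nS m * y)) / (n * Real.sqrt n))) *
          (Nr k K (idS m)).card := by
          have h3 : 0 ≤ |c m| * (2 * |Vk k (n / (nS m * y))|) := by positivity
          have h4 : |c m| * (2 * |Vk k (n / (nS m * y))|) ≤
              |c m| * (2 * (C * (nS m * y * Real.sqrt (nS m * y)) / (n * Real.sqrt n))) :=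
            mul_le_mul_of_nonneg_left (by linarith) (abs_nonneg _)
          exact mul_le_mul h4 h2 (Nat.cast_nonneg _) (h3.trans h4)
      _ = κ m / (n * Real.sqrt n) := by
          rw [hκ]
          ring
  have hzt : zt k S c y (J : Ideal (𝓞 K)) =
      (∑ m ∈ S, c m * (2 * Vk k (n / (nS m * y))) * dvn k (idS m) (J : Ideal (𝓞 K))) /
        Real.sqrt n := by
    rw [hnd]
    rfl
  rw [hzt, Real.norm_eq_abs, abs_div, abs_of_pos hsn, div_le_iff₀ hsn]
  calc |∑ m ∈ S, c m * (2 * Vk k (n / (nS m * y))) * dvn k (idS m) (J : Ideal (𝓞 K))|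
      ≤ ∑ m ∈ S, |c m * (2 * Vk k (n / (nS m * y))) * dvn k (idS m) (J : Ideal (𝓞 K))| :=
        Finset.abs_sum_le_sum_abs _ _
    _ ≤ ∑ m ∈ S, κ m / (n * Real.sqrt n) := Finset.sum_le_sum hterm
    _ = (∑ m ∈ S, κ m) / (n * Real.sqrt n) := by rw [Finset.sum_div]
    _ = (∑ m ∈ S, κ m) * (1 / n ^ 2) * Real.sqrt n := by
        have h5 : Real.sqrt n * Real.sqrt n = n := Real.mul_self_sqrt hn.le
        field_simp
        rw [sq, h5]

theorem pf_ZSJ (hBIJ : T_BIJ) (hSIJ : T_SIJ) : T_ZSJ := by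
  classical
  intro k _ _ _ hV K _ _ _ _
  refine ⟨fun S c y hy => zsj_sum hSIJ k hV K S c y hy, ?_⟩
  intro f D b₀ δ hKD hTrv A b I hA hI
  constructor
  · intro S c
    obtain ⟨e, he1, he2⟩ := hBIJ k K f D b₀ δ hKD hTrv A b I hA hI
    have hsd : 0 < sd f (em D) := by
      unfold sd
      refine div_pos ?_ ?_
      · unfold sD
        refine Real.sqrt_pos.2 (Finset.prod_pos fun v _ => ?_)
        exact hKD.pos v
      · unfold nm
        have h1 : Ideal.absNorm f ≠ 0 := by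
          rw [Ne, Ideal.absNorm_eq_zero_iff]
          exact hKD.f_ne
        exact_mod_cast Nat.pos_of_ne_zero h1
    have h1 := zsj_sum hSIJ k hV K S c (sd f (em D)) hsd
    obtain ⟨tot, htot⟩ : ∃ tot : ℝ, HasSum (fun J : {J : (Ideal (𝓞 K))⁰ //
        cl k K J = (cl k K I)⁻¹} => zt k S c (sd f (em D)) (J.1 : Ideal (𝓞 K))) tot :=
      (h1.subtype {J : (Ideal (𝓞 K))⁰ | cl k K J = (cl k K I)⁻¹})
    have h3 : HasSum (fun J : (Ideal (𝓞 K))⁰ => if cl k K J = (cl k K I)⁻¹ then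
        zt k S c (sd f (em D)) (J : Ideal (𝓞 K)) else 0) tot :=
      zsj_ind (fun J : (Ideal (𝓞 K))⁰ => cl k K J = (cl k K I)⁻¹)
        (fun J : (Ideal (𝓞 K))⁰ => zt k S c (sd f (em D)) (J : Ideal (𝓞 K))) tot htot
    obtain ⟨G, hG⟩ : ∃ G : ClassGroup (𝓞 k) × V2 k → ℝ, G = fun p =>
        (∑ m ∈ S, c m * (2 * Vk k (nf (ci p.1) A f (em b) (em D) p.2 /
          (nS m * sd f (em D)))) * nu f m (ci p.1) A b (q4 (b ^ 2 + D)) p.2) /
          Real.sqrt (nf (ci p.1) A f (em b) (em D) p.2) := ⟨_, rfl⟩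
    have h4 : HasSum (fun p : {p : ClassGroup (𝓞 k) × V2 k //
        p.2 ∈ Lb (ci p.1) (A * f) ∧ p.2 ∈ Fo k} => G p.1) tot := by
      have h5 := (e.hasSum_iff).2 htot
      have h6 : (fun p : {p : ClassGroup (𝓞 k) × V2 k //
          p.2 ∈ Lb (ci p.1) (A * f) ∧ p.2 ∈ Fo k} => G p.1) =
          (fun J : {J : (Ideal (𝓞 K))⁰ // cl k K J = (cl k K I)⁻¹} =>
            zt k S c (sd f (em D)) (J.1 : Ideal (𝓞 K))) ∘ e := by
        funext p
        rw [hG]
        simp only [Function.comp_apply]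
        unfold zt
        rw [he1 p]
        congr 1
        refine Finset.sum_congr rfl fun m _ => ?_
        rw [he2 p m]
      rw [h6]
      exact h5
    have h6 : HasSum (fun p : ClassGroup (𝓞 k) × V2 k =>
        if p.2 ∈ Lb (ci p.1) (A * f) ∧ p.2 ∈ Fo k then G p else 0) tot :=
      zsj_ind (fun p : ClassGroup (𝓞 k) × V2 k => p.2 ∈ Lb (ci p.1) (A * f) ∧ p.2 ∈ Fo k)
        G tot h4
    have h7 : HasSum (fun a : ClassGroup (𝓞 k) => ∑' u : V2 k,
        if u ∈ Lb (ci a) (A * f) ∧ u ∈ Fo k then G (a, u) else 0) tot :=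
      h6.prod_fiberwise fun a => (h6.summable.prod_factor a).hasSum
    have h8 : tot = Zc f S c A b D := by
      have h9 := h7.unique (hasSum_fintype _)
      rw [h9, hG]
      rfl
    rw [← h8]
    exact h3
  · unfold zf Zc
    refine Finset.sum_congr rfl fun a _ => ?_
    refine tsum_congr fun u => ?_
    split_ifs
    · rw [Finset.sum_singleton]
      have e1 : nS (∅ : Finset (PrI k)) = 1 := by
        unfold nS
        exact Finset.prod_empty
      have e2 : nu f ∅ (ci a) A b (q4 (b ^ 2 + D)) u = 1 := by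
        unfold nu
        exact Finset.prod_empty
      rw [e1, e2, one_mul, one_mul, Nat.cast_one, mul_one]
      unfold sd
      rw [div_div_eq_mul_div]
    · rfl

end Pool.Agent.H33.NV
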